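import Mathlib
import Pool.Agent.Helper86.ET.R5

/-!
# E-T (MP_12a1af_nt), project T*: short pieces on the R side

The region with the higher bottom has length `l = W` and a block, so its `y` is `1` and its content
is `t`.  The general equation `REq W l' ν 1 t y' t'` of helper86 is kept (`Rc l 1 = 0`).
Family (F4a): `QR W h ν = {ν - Rc W y mod 2^W : y ∈ Yp h}`.
-/

set_option autoImplicit false

open Finset

namespace Pool.Agent.ETS.SH

open Pool.Agent.ETS.RC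

lemma Rc_one (l : ℕ) : Rc l 1 = 0 := by
  unfold Rc
  simp

/-- `a - b` modulo `2 ^ W` as a natural number below `2 ^ W` -/
def msub (W a b : ℕ) : ℕ := (a + (2 ^ W - b % 2 ^ W)) % 2 ^ W

lemma msub_lt (W a b : ℕ) : msub W a b < 2 ^ W := Nat.mod_lt _ (by positivity)

lemma msub_add (W a b : ℕ) : msub W a b + b ≡ a [MOD 2 ^ W] := by
  unfold msub
  have h0 : b % 2 ^ W < 2 ^ W := Nat.mod_lt _ (by positivity)
  have h1 : (a + (2 ^ W - b % 2 ^ W)) % 2 ^ W + b ≡ (a + (2 ^ W - b % 2 ^ W)) + b % 2 ^ W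
      [MOD 2 ^ W] := (Nat.mod_modEq _ _).add (Nat.mod_modEq _ _).symm
  have h2 : (a + (2 ^ W - b % 2 ^ W)) + b % 2 ^ W = a + 2 ^ W := by omega
  rw [h2] at h1
  exact h1.trans (by simp [Nat.ModEq])

lemma eq_msub {W a b t : ℕ} (ht : t < 2 ^ W) (h : t + b ≡ a [MOD 2 ^ W]) : t = msub W a b := by
  have h1 := h.trans (msub_add W a b).symm
  exact (Nat.ModEq.add_right_cancel' _ h1).eq_of_lt_of_lt ht (msub_lt _ _ _)

lemma msub_congr {W a a' b : ℕ} (h : a ≡ a' [MOD 2 ^ W]) : msub W a b = msub W a' b := by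
  refine eq_msub (msub_lt _ _ _) ((msub_add W a b).trans h)

/-- family (F4a) -/
noncomputable def QR (W h ν : ℕ) : Finset ℕ := (Yp h).image (fun y => msub W ν (Rc W y))

lemma card_QR_le (W h ν : ℕ) : (QR W h ν).card ≤ 2 ^ h :=
  card_image_le.trans (card_Yp_le h)

lemma QR_congr {W h ν ν' : ℕ} (h0 : ν ≡ ν' [MOD 2 ^ W]) : QR W h ν = QR W h ν' := by
  unfold QR
  refine Finset.image_congr (fun y _ => msub_congr h0)

/-- all sets of the family are `QR W h ν`, `ν < 2 ^ W` -/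
lemma QR_mod (W h ν : ℕ) : QR W h ν = QR W h (ν % 2 ^ W) := QR_congr (Nat.mod_modEq _ _).symm

/-- core: pairs `(t, y')` with `t + Rc W y' = ν` -/
lemma card_core {W h' ν B : ℕ} (hh : 2 * h' ≤ W) (X : Finset ℕ) (hX : ∀ t ∈ X, t < 2 ^ W)
    (hB : (X ∩ QR W h' ν).card ≤ B) (S : Finset (ℕ × ℕ))
    (hS : ∀ s ∈ S, s.1 ∈ X ∧ s.2 ∈ Yp h' ∧ s.1 + Rc W s.2 ≡ ν [MOD 2 ^ W]) : S.card ≤ B := by
  classical
  refine le_trans ?_ hB
  refine card_le_card_of_injOn (fun s => s.1) ?_ ?_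
  · intro s hs
    obtain ⟨h1, h2, h3⟩ := hS s hs
    rw [coe_inter]
    refine ⟨h1, ?_⟩
    simp only [QR, coe_image, Set.mem_image, Finset.mem_coe]
    exact ⟨s.2, h2, (eq_msub (hX _ h1) h3).symm⟩
  · intro s hs r hr hsr
    obtain ⟨h1, h2, h3⟩ := hS s hs
    obtain ⟨g1, g2, g3⟩ := hS r hr
    simp only at hsr
    rw [hsr] at h3
    have h4 := Nat.ModEq.add_left_cancel' _ (h3.trans g3.symm)
    have h5 := Rc_inj (l := W) (t := 0) (s := 0) h2 g2 (by omega) (by positivity) (by positivity)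
      (by simpa using h4)
    exact Prod.ext hsr h5.1

/-- (SR1) region `[v - W, v)` with block against the plain region `[v - W, v)`. -/
theorem card_SR1 {W h' ν B : ℕ} (hh : 2 * h' ≤ W) (X : Finset ℕ) (hX : ∀ t ∈ X, t < 2 ^ W)
    (hB : ∀ ν, ν < 2 ^ W → (X ∩ QR W h' ν).card ≤ B) (S : Finset ((ℕ × ℕ) × (ℕ × ℕ)))
    (hS : ∀ s ∈ S, s.1.1 = 1 ∧ s.1.2 ∈ X ∧ s.2.1 ∈ Yp h' ∧ s.2.2 = 0 ∧
      REq W W ν s.1.1 s.1.2 s.2.1 s.2.2) : S.card ≤ B := by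
  classical
  have hinj : Set.InjOn (fun s : (ℕ × ℕ) × (ℕ × ℕ) => (s.1.2, s.2.1)) S := by
    intro s hs r hr he
    obtain ⟨a1, _, _, a4, _⟩ := hS s hs
    obtain ⟨b1, _, _, b4, _⟩ := hS r hr
    simp only [Prod.mk.injEq] at he
    exact Prod.ext (Prod.ext (a1.trans b1.symm) he.1) (Prod.ext he.2 (a4.trans b4.symm))
  rw [← card_image_of_injOn hinj]
  refine card_core (ν := ν % 2 ^ W) hh X hX (hB _ (Nat.mod_lt _ (by positivity))) _ ?_
  intro p hp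
  rw [mem_image] at hp
  obtain ⟨s, hs, rfl⟩ := hp
  obtain ⟨a1, a2, a3, a4, a5⟩ := hS s hs
  refine ⟨a2, a3, ?_⟩
  unfold REq at a5
  rw [a1, a4, Rc_one] at a5
  simp only [Nat.sub_self, pow_zero, one_mul, zero_add, add_zero] at a5
  exact a5.trans (Nat.mod_modEq _ _).symm

/-- (SR2) region `[v - W, v)` with block against the region `[v - 2W, v)` with block. -/
theorem card_SR2 {W h' ν B : ℕ} (hh : 2 * h' ≤ W) (X : Finset ℕ) (hX : ∀ t ∈ X, t < 2 ^ W)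
    (hB : ∀ ν, ν < 2 ^ W → (X ∩ QR W h' ν).card ≤ B) (S : Finset ((ℕ × ℕ) × (ℕ × ℕ)))
    (hS : ∀ s ∈ S, s.1.1 = 1 ∧ s.1.2 ∈ X ∧ s.2.1 ∈ Yp h' ∧ s.2.2 < 2 ^ W ∧
      REq W (2 * W) ν s.1.1 s.1.2 s.2.1 s.2.2) : S.card ≤ 2 * B := by
  classical
  have hW0 : 0 < 2 ^ W := by positivity
  have h2W : 2 ^ (2 * W) = 2 ^ W * 2 ^ W := by rw [← pow_add]; congr 1; omega
  have hinj : Set.InjOn (fun s : (ℕ × ℕ) × (ℕ × ℕ) => (s.1.2, s.2.1)) S := by
    intro s hs r hr he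
    obtain ⟨a1, _, _, a4, a5⟩ := hS s hs
    obtain ⟨b1, _, _, b4, b5⟩ := hS r hr
    simp only [Prod.mk.injEq] at he
    have e1 : s.1 = r.1 := Prod.ext (a1.trans b1.symm) he.1
    have hle : 2 ^ W ≤ 2 ^ (2 * W) := Nat.pow_le_pow_right (by norm_num) (by omega)
    rw [e1, he.2] at a5
    exact Prod.ext e1 (Prod.ext he.2
      (REq_unique (lt_of_lt_of_le a4 hle) (lt_of_lt_of_le b4 hle) a5 b5))
  rw [← card_image_of_injOn hinj]
  set D := S.image (fun s => (s.1.2, s.2.1)) with hD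
  -- the two possible values of `t + Rc W y'`
  have key : ∀ p ∈ D, p.1 ∈ X ∧ p.2 ∈ Yp h' ∧ (p.1 + Rc W p.2 ≡ ν / 2 ^ W [MOD 2 ^ W] ∨
      p.1 + Rc W p.2 ≡ ν / 2 ^ W + (2 ^ W - 1) [MOD 2 ^ W]) := by
    intro p hp
    rw [hD, mem_image] at hp
    obtain ⟨s, hs, rfl⟩ := hp
    obtain ⟨a1, a2, a3, a4, a5⟩ := hS s hs
    refine ⟨a2, a3, ?_⟩
    unfold REq at a5
    rw [a1, Rc_one, zero_add, show 2 * W - W = W by omega] at a5
    have hdiv : Rc (2 * W) s.2.1 / 2 ^ W = Rc W s.2.1 := by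
      have := Rc_div (k := W) (l := 2 * W) (y := s.2.1) (by omega)
      rwa [show 2 * W - W = W by omega] at this
    set r := Rc (2 * W) s.2.1 % 2 ^ W with hr
    have hrlt : r < 2 ^ W := Nat.mod_lt _ hW0
    have hRc : Rc (2 * W) s.2.1 = 2 ^ W * Rc W s.2.1 + r := by
      rw [← hdiv, hr]; exact (Nat.div_add_mod _ _).symm
    set c := (r + s.2.2) / 2 ^ W with hc
    set m := (r + s.2.2) % 2 ^ W with hm
    have hcm : r + s.2.2 = 2 ^ W * c + m := by rw [hc, hm]; exact (Nat.div_add_mod _ _).symm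
    have hmlt : m < 2 ^ W := Nat.mod_lt _ hW0
    have hc2 : c < 2 := by
      rw [hc, Nat.div_lt_iff_lt_mul hW0]; omega
    have e1 : 2 ^ W * s.1.2 + (Rc (2 * W) s.2.1 + s.2.2) =
        m + 2 ^ W * (s.1.2 + Rc W s.2.1 + c) := by
      rw [hRc]
      have : 2 ^ W * s.1.2 + (2 ^ W * Rc W s.2.1 + r + s.2.2) =
        2 ^ W * s.1.2 + 2 ^ W * Rc W s.2.1 + (r + s.2.2) := by ring
      rw [this, hcm]; ring
    rw [e1] at a5
    have hν : ν = ν % 2 ^ W + 2 ^ W * (ν / 2 ^ W) := (Nat.mod_add_div _ _).symm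
    have hmod : m ≡ ν % 2 ^ W [MOD 2 ^ W] := by
      have h6 : m + 2 ^ W * (s.1.2 + Rc W s.2.1 + c) ≡ ν [MOD 2 ^ W] :=
        a5.of_dvd (by rw [h2W]; exact Dvd.intro _ rfl)
      have h7 : m + 2 ^ W * (s.1.2 + Rc W s.2.1 + c) ≡ m [MOD 2 ^ W] := by
        simp [Nat.ModEq]
      exact (h7.symm.trans h6).trans (Nat.mod_modEq _ _).symm
    have hmeq : m = ν % 2 ^ W := hmod.eq_of_lt_of_lt hmlt (Nat.mod_lt _ hW0)
    rw [hν, ← hmeq, h2W] at a5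
    have a6 := Nat.ModEq.add_left_cancel' _ a5
    have a7 : s.1.2 + Rc W s.2.1 + c ≡ (m + 2 ^ W * (ν / 2 ^ W)) / 2 ^ W [MOD 2 ^ W] := by
      have h8 : (m + 2 ^ W * (ν / 2 ^ W)) / 2 ^ W = ν / 2 ^ W := by
        rw [Nat.add_mul_div_left _ _ hW0, Nat.div_eq_of_lt hmlt, zero_add]
      rw [h8]
      have h9 := Nat.ModEq.mul_left_cancel' (c := 2 ^ W) (by positivity) a6
      rwa [hν, ← hmeq, h8] at h9
    have h8 : (m + 2 ^ W * (ν / 2 ^ W)) / 2 ^ W = ν / 2 ^ W := by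
      rw [Nat.add_mul_div_left _ _ hW0, Nat.div_eq_of_lt hmlt, zero_add]
    rw [h8] at a7
    interval_cases c
    · left; simpa using a7
    · right
      have h10 : s.1.2 + Rc W s.2.1 + 1 + (2 ^ W - 1) ≡ ν / 2 ^ W + (2 ^ W - 1) [MOD 2 ^ W] :=
        a7.add_right _
      have h11 : s.1.2 + Rc W s.2.1 + 1 + (2 ^ W - 1) = s.1.2 + Rc W s.2.1 + 2 ^ W := by omega
      rw [h11] at h10
      have h12 : s.1.2 + Rc W s.2.1 ≡ s.1.2 + Rc W s.2.1 + 2 ^ W [MOD 2 ^ W] := by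
        simp [Nat.ModEq]
      exact h12.trans h10
  have hsplit : D ⊆ D.filter (fun p => p.1 + Rc W p.2 ≡ ν / 2 ^ W [MOD 2 ^ W]) ∪
      D.filter (fun p => p.1 + Rc W p.2 ≡ ν / 2 ^ W + (2 ^ W - 1) [MOD 2 ^ W]) := by
    intro p hp
    rw [mem_union, mem_filter, mem_filter]
    rcases (key p hp).2.2 with h | h
    · exact Or.inl ⟨hp, h⟩
    · exact Or.inr ⟨hp, h⟩
  have c1 : (D.filter (fun p => p.1 + Rc W p.2 ≡ ν / 2 ^ W [MOD 2 ^ W])).card ≤ B := by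
    refine card_core (ν := (ν / 2 ^ W) % 2 ^ W) hh X hX (hB _ (Nat.mod_lt _ hW0)) _ ?_
    intro p hp
    rw [mem_filter] at hp
    exact ⟨(key p hp.1).1, (key p hp.1).2.1, hp.2.trans (Nat.mod_modEq _ _).symm⟩
  have c2 : (D.filter (fun p => p.1 + Rc W p.2 ≡ ν / 2 ^ W + (2 ^ W - 1) [MOD 2 ^ W])).card
      ≤ B := by
    refine card_core (ν := (ν / 2 ^ W + (2 ^ W - 1)) % 2 ^ W) hh X hX
      (hB _ (Nat.mod_lt _ hW0)) _ ?_
    intro p hp
    rw [mem_filter] at hp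
    exact ⟨(key p hp.1).1, (key p hp.1).2.1, hp.2.trans (Nat.mod_modEq _ _).symm⟩
  have := (card_le_card hsplit).trans (card_union_le _ _)
  omega

/-- (SR3) region `[v - W, v)` with block against a longer region, no property of `X` used. -/
theorem card_SR3 {W l' h' ν : ℕ} (hWl : W ≤ l') (X : Finset ℕ)
    (S : Finset ((ℕ × ℕ) × (ℕ × ℕ)))
    (hS : ∀ s ∈ S, s.1.1 = 1 ∧ s.1.2 ∈ X ∧ s.2.1 ∈ Yp h' ∧ s.2.2 < 2 ^ (l' - W) ∧
      REq W l' ν s.1.1 s.1.2 s.2.1 s.2.2) :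
    (S.card : ℝ) ≤ X.card * (2 * (1 + 2 * 2 ^ h' / 2 ^ W)) := by
  classical
  have h1 : S.card = ∑ t ∈ X, (S.filter (fun s => s.1.2 = t)).card :=
    card_eq_sum_card_fiberwise (f := fun s : (ℕ × ℕ) × (ℕ × ℕ) => s.1.2) (t := X)
      (fun s hs => (hS s hs).2.1)
  rw [h1]
  push_cast
  rw [← nsmul_eq_mul, ← Finset.sum_const]
  refine Finset.sum_le_sum (fun t _ => ?_)
  set St := S.filter (fun s => s.1.2 = t) with hSt
  have hle : 2 ^ (l' - W) ≤ 2 ^ l' := Nat.pow_le_pow_right (by norm_num) (Nat.sub_le _ _)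
  have hinj : Set.InjOn (fun s : (ℕ × ℕ) × (ℕ × ℕ) => s.2.1) St := by
    intro s hs r hr he
    simp only [hSt, coe_filter, Set.mem_ofPred_eq] at hs hr
    obtain ⟨a1, a2, a3, a4, a5⟩ := hS s hs.1
    obtain ⟨b1, b2, b3, b4, b5⟩ := hS r hr.1
    have e1 : s.1 = r.1 := Prod.ext (a1.trans b1.symm) (hs.2.trans hr.2.symm)
    simp only at he
    rw [e1, he] at a5
    exact Prod.ext e1 (Prod.ext he
      (REq_unique (lt_of_lt_of_le a4 hle) (lt_of_lt_of_le b4 hle) a5 b5))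
  rw [← card_image_of_injOn hinj]
  have h3 := card_cut (l := l') (h := h') (κ := 2 ^ (l' - W) * t) (ρ := ν) (L := 0)
    (w := l' - W) (St.image (fun s => s.2.1)) ?_
  · refine h3.trans ?_
    refine mul_le_mul_of_nonneg_left ?_ (by norm_num)
    have hsplit : (2:ℝ) ^ l' = 2 ^ (l' - W) * 2 ^ W := by
      rw [← pow_add]; congr 1; omega
    have h4 : (1:ℝ) ≤ 2 ^ (l' - W) := one_le_pow₀ (by norm_num)
    have h5 : (((0:ℕ):ℝ) + 2 ^ (l' - W) + 1) / 2 ^ l' ≤ 2 / 2 ^ W := by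
      rw [hsplit, div_le_div_iff₀ (by positivity) (by positivity)]
      push_cast
      have : (0:ℝ) < 2 ^ W := by positivity
      nlinarith
    have h6 : (2:ℝ) ^ h' * ((((0:ℕ):ℝ) + 2 ^ (l' - W) + 1) / 2 ^ l') ≤ 2 ^ h' * (2 / 2 ^ W) :=
      mul_le_mul_of_nonneg_left h5 (by positivity)
    have h7 : (2:ℝ) ^ h' * (2 / 2 ^ W) = 2 * 2 ^ h' / 2 ^ W := by ring
    linarith
  · intro y hy
    rw [mem_image] at hy
    obtain ⟨s, hs, rfl⟩ := hy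
    rw [hSt, mem_filter] at hs
    obtain ⟨a1, a2, a3, a4, a5⟩ := hS s hs.1
    refine ⟨a3, s.2.2, 0, a4, le_refl _, ?_⟩
    unfold REq at a5
    rw [a1, Rc_one, zero_add, hs.2] at a5
    rw [add_zero]
    have : Rc l' s.2.1 + s.2.2 + 2 ^ (l' - W) * t = 2 ^ (l' - W) * t + (Rc l' s.2.1 + s.2.2) := by
      ring
    rw [this]
    exact a5

/-- (SR5) two regions `[v - W, v)` with blocks. -/
theorem card_SR5 {W ν r : ℕ} (X X' : Finset ℕ) (hX : ∀ t ∈ X, t < 2 ^ W)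
    (hX' : ∀ t ∈ X', t < 2 ^ W)
    (hr : ∀ s, ((X ×ˢ X').filter (fun p => p.1 + p.2 = s)).card ≤ r)
    (S : Finset ((ℕ × ℕ) × (ℕ × ℕ)))
    (hS : ∀ s ∈ S, s.1.1 = 1 ∧ s.1.2 ∈ X ∧ s.2.1 = 1 ∧ s.2.2 ∈ X' ∧
      REq W W ν s.1.1 s.1.2 s.2.1 s.2.2) : S.card ≤ 2 * r := by
  classical
  have hW0 : 0 < 2 ^ W := by positivity
  have hsum : ∀ s ∈ S, s.1.2 + s.2.2 = ν % 2 ^ W ∨ s.1.2 + s.2.2 = ν % 2 ^ W + 2 ^ W := by
    intro s hs
    obtain ⟨a1, a2, a3, a4, a5⟩ := hS s hs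
    unfold REq at a5
    rw [a1, a3, Rc_one] at a5
    simp only [Nat.sub_self, pow_zero, one_mul, zero_add] at a5
    have b1 := hX _ a2
    have b2 := hX' _ a4
    have h3 : (s.1.2 + s.2.2) % 2 ^ W = ν % 2 ^ W := a5
    have h4 := Nat.div_add_mod (s.1.2 + s.2.2) (2 ^ W)
    have h5 : (s.1.2 + s.2.2) / 2 ^ W < 2 := by
      rw [Nat.div_lt_iff_lt_mul hW0]; omega
    interval_cases h6 : (s.1.2 + s.2.2) / 2 ^ W
    · left; omega
    · right; omega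
  have hinj : Set.InjOn (fun s : (ℕ × ℕ) × (ℕ × ℕ) => (s.1.2, s.2.2)) S := by
    intro s hs u hu he
    obtain ⟨a1, _, a3, _, _⟩ := hS s hs
    obtain ⟨b1, _, b3, _, _⟩ := hS u hu
    simp only [Prod.mk.injEq] at he
    exact Prod.ext (Prod.ext (a1.trans b1.symm) he.1) (Prod.ext (a3.trans b3.symm) he.2)
  rw [← card_image_of_injOn hinj]
  have hsub : S.image (fun s => (s.1.2, s.2.2)) ⊆
      ((X ×ˢ X').filter (fun p => p.1 + p.2 = ν % 2 ^ W)) ∪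
      ((X ×ˢ X').filter (fun p => p.1 + p.2 = ν % 2 ^ W + 2 ^ W)) := by
    intro p hp
    rw [mem_image] at hp
    obtain ⟨s, hs, rfl⟩ := hp
    obtain ⟨a1, a2, a3, a4, a5⟩ := hS s hs
    rw [mem_union, mem_filter, mem_filter, mem_product]
    rcases hsum s hs with h | h
    · exact Or.inl ⟨⟨a2, a4⟩, h⟩
    · exact Or.inr ⟨⟨a2, a4⟩, h⟩
  have h1 := hr (ν % 2 ^ W)
  have h2 := hr (ν % 2 ^ W + 2 ^ W)
  have := (card_le_card hsub).trans (card_union_le _ _)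
  omega

/-- (SR6) the empty region `[v, v)` against any region with the same top. -/
theorem card_SR6 {W l' h' ν : ℕ} (hl : h' + W ≤ l')
    (S : Finset (ℕ × ℕ))
    (hS : ∀ s ∈ S, s.1 ∈ Yp h' ∧ s.2 < 2 ^ W ∧ Rc l' s.1 + s.2 ≡ ν [MOD 2 ^ l']) :
    S.card ≤ 1 := by
  classical
  rw [card_le_one]
  intro s hs u hu
  obtain ⟨a1, a2, a3⟩ := hS s hs
  obtain ⟨b1, b2, b3⟩ := hS u hu
  have hW : 2 ^ W ≤ 2 ^ (l' - h') := Nat.pow_le_pow_right (by norm_num) (by omega)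
  have h := Rc_inj a1 b1 (by omega) (lt_of_lt_of_le a2 hW) (lt_of_lt_of_le b2 hW)
    (a3.trans b3.symm)
  exact Prod.ext h.1 h.2

end Pool.Agent.ETS.SH
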