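import Mathlib
import Pool.Agent.Helper86.ET.R4

/-!
# E-T (MP_12a1af_nt), project T*: the R code, slope lemma with a weaker hypothesis

`card_RR2s` is `card_RR2` of helper86 with the hypothesis `l + 2 w <= 2 (h + h') + 1`; it covers the
length `l = 2 W` of the shorter region (`w = W / 2`, `h = w`, `h' = 2 w`, `l = 4 w`).
-/

set_option autoImplicit false

open Finset

namespace Pool.Agent.ETS.RC

/-- `(RR2)` : the block set `X` of the shorter region has at most `B` points on every discretised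
progression. -/
theorem card_RR2s {l l' h h' ν w B : ℕ} (hw3 : 3 ≤ w) (hl : l ≤ l') (hh : h + h' + w ≤ l)
    (hh2 : l + 2 * w ≤ 2 * (h + h') + 1) (X : Finset ℕ) (hX : ∀ t ∈ X, t < 2 ^ (2 * w))
    (hB : ∀ j k, j < 2 ^ (4 * w) → k < 2 ^ (4 * w) → (X ∩ Qs w j k).card ≤ B)
    (S : Finset ((ℕ × ℕ) × (ℕ × ℕ)))
    (hS : ∀ s ∈ S, s.1.1 ∈ Yp h ∧ s.1.2 ∈ X ∧ s.2.1 ∈ Yp h' ∧ s.2.2 < 2 ^ (l' - l) ∧
      REq l l' ν s.1.1 s.1.2 s.2.1 s.2.2) :
    S.card ≤ 20160 * B := by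
  classical
  set β : ℝ := (ν:ℝ) / 2 ^ l' with hβ
  set ε : ℝ := 2 ^ (2 * w) / 2 ^ l + 1 / 2 ^ l with hε
  set δ : ℝ := 2 / 2 ^ l with hδ
  have hlp : (0:ℝ) < 2 ^ l := by positivity
  have hlp' : (0:ℝ) < 2 ^ l' := by positivity
  have hw1 : (1:ℝ) ≤ 2 ^ (2 * w) := one_le_pow₀ (by norm_num)
  have hεδ4 : ε + δ ≤ 4 * 2 ^ (2 * w) / 2 ^ l := by
    rw [hε, hδ, ← add_div, ← add_div]
    refine div_le_div_of_nonneg_right ?_ hlp.le
    linarith
  have hεδ : ε + δ ≤ 1 := by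
    refine hεδ4.trans ?_
    rw [div_le_one hlp]
    calc (4:ℝ) * 2 ^ (2 * w) = 2 ^ (2 * w + 2) := by rw [pow_add]; ring
      _ ≤ 2 ^ l := pow_le_pow_right₀ (by norm_num) (by omega)
  obtain ⟨M₀, hM₀⟩ := three_m ((h:ℝ) + h') β ε δ hεδ
  have hε0 : 0 ≤ ε := by positivity
  have hδ0 : 0 ≤ δ := by positivity
  let PS : Finset ℕ := S.image (fun s => s.1.1 * s.2.1)
  let Tj : ℕ → Finset ℕ := fun j => PS.filter (fun P =>
    β + ((M₀ + j : ℤ) : ℝ) - ε ≤ Real.logb 2 P ∧ Real.logb 2 P ≤ β + ((M₀ + j : ℤ) : ℝ) + δ)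
  let A : ℕ → ℕ := fun j => if hne : (Tj j).Nonempty then (Tj j).min' hne else 0
  have hPS : ∀ P ∈ PS, 2 ^ (h + h' - 2) ≤ P ∧ P ≤ 2 ^ (h + h') := by
    intro P hP
    simp only [PS, mem_image] at hP
    obtain ⟨s, hs, rfl⟩ := hP
    obtain ⟨hy, -, hy', -, -⟩ := hS s hs
    have a1 := (mem_Yp.mp hy).1
    have a2 := (mem_Yp.mp hy').1
    constructor
    · calc 2 ^ (h + h' - 2) ≤ 2 ^ ((h - 1) + (h' - 1)) :=
            Nat.pow_le_pow_right (by norm_num) (by omega)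
        _ = 2 ^ (h-1) * 2 ^ (h'-1) := by rw [pow_add]
        _ ≤ _ := Nat.mul_le_mul a1.1.le a2.1.le
    · calc s.1.1 * s.2.1 ≤ 2 ^ h * 2 ^ h' := Nat.mul_le_mul a1.2.le a2.2.le
        _ = _ := by rw [pow_add]
  -- elements of `Tj j` are near to the least one
  have hnear : ∀ j, ∀ P ∈ Tj j, 2 ^ (h + h' - 2) ≤ A j ∧ A j ≤ P ∧ P ≤ A j + 4 * 2 ^ w := by
    intro j P hP
    have hne : (Tj j).Nonempty := ⟨P, hP⟩
    have hA : A j = (Tj j).min' hne := by simp only [A]; rw [dif_pos hne]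
    have hAm : A j ∈ Tj j := by rw [hA]; exact (Tj j).min'_mem hne
    have hAP : A j ≤ P := by rw [hA]; exact (Tj j).min'_le P hP
    simp only [Tj, mem_filter] at hAm hP
    have hA1 := hPS _ hAm.1
    have hP1 := hPS _ hP.1
    refine ⟨hA1.1, hAP, ?_⟩
    have hApos : (0:ℝ) < A j := by
      have : 0 < 2 ^ (h + h' - 2) := by positivity
      exact_mod_cast (lt_of_lt_of_le this hA1.1)
    have hPpos : (0:ℝ) < P := by
      have : (A j : ℝ) ≤ P := by exact_mod_cast hAP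
      linarith
    have h5 : (P : ℝ) ≤ A j * 2 ^ (ε + δ) := by
      have : Real.logb 2 P ≤ Real.logb 2 (A j * 2 ^ (ε + δ)) := by
        rw [Real.logb_mul hApos.ne' (by positivity), Real.logb_rpow (by norm_num) (by norm_num)]
        linarith [hAm.2.1, hP.2.2]
      rwa [Real.logb_le_logb (by norm_num) hPpos (by positivity)] at this
    have h6 : (P : ℝ) ≤ A j * (1 + (ε + δ)) :=
      h5.trans (mul_le_mul_of_nonneg_left (two_rpow_le (by positivity) hεδ) hApos.le)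
    have h7 : (A j : ℝ) * (ε + δ) ≤ 4 * 2 ^ w := by
      have e1 : (A j : ℝ) ≤ 2 ^ (h + h') := by exact_mod_cast hA1.2
      calc (A j : ℝ) * (ε + δ) ≤ 2 ^ (h + h') * (4 * 2 ^ (2 * w) / 2 ^ l) :=
            mul_le_mul e1 hεδ4 (by positivity) (by positivity)
        _ = 4 * 2 ^ (h + h' + 2 * w) / 2 ^ l := by rw [pow_add]; ring
        _ ≤ 4 * 2 ^ w := by
            rw [div_le_iff₀ hlp, mul_assoc, ← pow_add]
            refine mul_le_mul_of_nonneg_left ?_ (by norm_num)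
            exact pow_le_pow_right₀ (by norm_num) (by omega)
    have h8 : (P : ℝ) ≤ A j + 4 * 2 ^ w := by linarith
    exact_mod_cast h8
  choose J K hJ hK hcov using fun jq : ℕ × ℕ => real_progression w
    ((2:ℝ) ^ l * (β + ((M₀ + jq.1 : ℤ) : ℝ)) -
      2 ^ l * Real.logb 2 ((A jq.1 + jq.2 * 2 ^ (w - 3) : ℕ) : ℝ))
    ((2:ℝ) ^ l / (((A jq.1 + jq.2 * 2 ^ (w - 3) : ℕ) : ℝ) * Real.log 2))
  set Tocc := S.image (fun s => s.1.2) with hTocc
  have hsub : Tocc ⊆ (range 3 ×ˢ (range 33 ×ˢ range 7)).biUnion (fun a => X ∩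
      Qs w ((J (a.1, a.2.1) + a.2.2 * 2 ^ (2 * w)) % 2 ^ (4 * w)) (K (a.1, a.2.1))) := by
    intro t ht
    rw [hTocc, mem_image] at ht
    obtain ⟨s, hs, rfl⟩ := ht
    obtain ⟨hy, htX, hy', ht', he⟩ := hS s hs
    obtain ⟨m, b1, b2⟩ := log_of_REq hl (Yp_pos hy) (Yp_pos hy') he
    have hlog := logb_mul_cast (Yp_pos hy) (Yp_pos hy')
    have l1 := logb_lt hy
    have l2 := logb_lt hy'
    have l3 := lt_logb hy
    have l4 := lt_logb hy'
    have ht1 : (s.1.2 : ℝ) / 2 ^ l ≤ 2 ^ (2 * w) / 2 ^ l := by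
      refine div_le_div_of_nonneg_right ?_ hlp.le
      exact_mod_cast (hX _ htX).le
    have ht0 : 0 ≤ (s.1.2 : ℝ) / 2 ^ l := by positivity
    have ht'0 : 0 ≤ (s.2.2 : ℝ) / 2 ^ l' := by positivity
    have hτ : (s.2.2 : ℝ) / 2 ^ l' ≤ 1 / 2 ^ l := by
      rw [div_le_div_iff₀ (by positivity) (by positivity)]
      have h5 : s.2.2 * 2 ^ l ≤ 2 ^ l' := by
        calc s.2.2 * 2 ^ l ≤ 2 ^ (l' - l) * 2 ^ l := Nat.mul_le_mul_right _ ht'.le
          _ = 2 ^ l' := by rw [← pow_add]; congr 1; omega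
      have : (s.2.2 : ℝ) * 2 ^ l ≤ 2 ^ l' := by exact_mod_cast h5
      linarith
    have h3 : (1:ℝ) / 2 ^ l' ≤ 1 / 2 ^ l :=
      one_div_le_one_div_of_le (by positivity) (pow_le_pow_right₀ (by norm_num) hl)
    have h4 : δ = 1 / 2 ^ l + 1 / 2 ^ l := by rw [hδ]; ring
    have c1 : β + m - ε ≤ Real.logb 2 s.1.1 + Real.logb 2 s.2.1 := by rw [hε]; linarith
    have c2 : Real.logb 2 s.1.1 + Real.logb 2 s.2.1 ≤ β + m + δ := by rw [h4]; linarith
    obtain ⟨j, hj, hmj⟩ : ∃ j : ℕ, j < 3 ∧ m = M₀ + (j : ℤ) := by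
      rcases hM₀ _ m (by linarith) (by linarith) c1 c2 with h | h | h
      · exact ⟨0, by norm_num, by rw [h]; simp⟩
      · exact ⟨1, by norm_num, by rw [h]; simp⟩
      · exact ⟨2, by norm_num, by rw [h]; simp⟩
    have hPT : s.1.1 * s.2.1 ∈ Tj j := by
      simp only [Tj, PS, mem_filter, mem_image]
      refine ⟨⟨s, hs, rfl⟩, ?_, ?_⟩
      · rw [hlog, ← hmj]; exact c1
      · rw [hlog, ← hmj]; exact c2
    obtain ⟨d1, d2, d3⟩ := hnear j _ hPT
    set P := s.1.1 * s.2.1 with hP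
    obtain ⟨r, hr⟩ := Nat.exists_eq_add_of_le d2
    set q := r / 2 ^ (w - 3) with hq
    set i := r % 2 ^ (w - 3) with hi
    have hi0 : i < 2 ^ (w - 3) := Nat.mod_lt _ (by positivity)
    have hi' : i < 2 ^ w := lt_of_lt_of_le hi0 (Nat.pow_le_pow_right (by norm_num) (by omega))
    have hw8 : 2 ^ w = 8 * 2 ^ (w - 3) := by
      rw [show (8:ℕ) = 2 ^ 3 by norm_num, ← pow_add]; congr 1; omega
    have hq5 : q < 33 := by
      rw [hq, Nat.div_lt_iff_lt_mul (by positivity)]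
      have : 0 < 2 ^ (w - 3) := by positivity
      omega
    have hrq : r = q * 2 ^ (w - 3) + i := by
      rw [hq, hi, mul_comm]; exact (Nat.div_add_mod r (2 ^ (w - 3))).symm
    set H := A j + q * 2 ^ (w - 3) with hH
    have hPH : P = H + i := by rw [hr, hH, hrq]; ring
    have hHge : 2 ^ (h + h' - 2) ≤ H := by rw [hH]; exact le_trans d1 (Nat.le_add_right _ _)
    have hHpos : 0 < H := lt_of_lt_of_le (by positivity) hHge
    have hwH : 2 ^ (w - 3) ≤ H := (Nat.pow_le_pow_right (by norm_num) (by omega)).trans hHge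
    have hH2 : 2 ^ (l + 2 * (w - 3) + 1) ≤ H ^ 2 := by
      calc 2 ^ (l + 2 * (w - 3) + 1) ≤ 2 ^ ((h + h' - 2) * 2) :=
            Nat.pow_le_pow_right (by norm_num) (by omega)
        _ = (2 ^ (h + h' - 2)) ^ 2 := by rw [pow_mul]
        _ ≤ H ^ 2 := Nat.pow_le_pow_left hHge 2
    obtain ⟨g1, g2⟩ := log_linear (l := l) hHpos hwH hH2 hi0
    have hlogP : Real.logb 2 ((H + i : ℕ) : ℝ) = Real.logb 2 s.1.1 + Real.logb 2 s.2.1 := by
      rw [← hPH]; exact hlog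
    rw [hlogP] at g1 g2
    have k1 : 2 ^ l * (s.1.2 / 2 ^ l : ℝ) = s.1.2 := mul_div_cancel₀ _ hlp.ne'
    have k2 : (2:ℝ) ^ l * (s.2.2 / 2 ^ l') ≤ 1 := by
      calc (2:ℝ) ^ l * (s.2.2 / 2 ^ l') ≤ 2 ^ l * (1 / 2 ^ l) :=
            mul_le_mul_of_nonneg_left hτ hlp.le
        _ = 1 := by rw [mul_one_div, div_self hlp.ne']
    have k2' : 0 ≤ (2:ℝ) ^ l * (s.2.2 / 2 ^ l') := by positivity
    have k3 : (2:ℝ) ^ l * (1 / 2 ^ l) = 1 := by rw [mul_one_div, div_self hlp.ne']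
    have k4 : (2:ℝ) ^ l * (1 / 2 ^ l') ≤ 1 := by
      calc (2:ℝ) ^ l * (1 / 2 ^ l') ≤ 2 ^ l * (1 / 2 ^ l) := mul_le_mul_of_nonneg_left h3 hlp.le
        _ = 1 := k3
    have b1' := mul_le_mul_of_nonneg_left b1 hlp.le
    have b2' := mul_lt_mul_of_pos_left b2 hlp
    simp only [mul_add, mul_sub] at b1' b2'
    rw [k1] at b1' b2'
    have hmj' : (m:ℝ) = ((M₀ + j : ℤ) : ℝ) := by rw [hmj]
    rw [hmj'] at b1' b2'
    obtain ⟨e, he7, heQ⟩ := hcov (j, q) i hi' s.1.2 (hX _ htX) (by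
      simp only
      rw [← hH]
      simp only [mul_add]
      linarith) (by
      simp only
      rw [← hH]
      simp only [mul_add]
      linarith)
    rw [mem_biUnion]
    refine ⟨(j, (q, e)), ?_, ?_⟩
    · simp only [mem_product, mem_range]
      exact ⟨hj, hq5, he7⟩
    · rw [mem_inter]
      exact ⟨htX, heQ⟩
  have hcard : Tocc.card ≤ 693 * B := by
    refine (card_le_card hsub).trans ((card_biUnion_le_card_mul _ _ B ?_).trans (le_of_eq ?_))
    · intro a _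
      exact hB _ _ (Nat.mod_lt _ (by positivity)) (hK _)
    · simp
  have hl2 : 2 ≤ l := by omega
  have hfin := card_RR1 (h := h) (h' := h') (ν := ν) hl hl2 Tocc S (fun s hs => by
    obtain ⟨a, b, c, d, e⟩ := hS s hs
    exact ⟨a, mem_image_of_mem _ hs, c, d, e⟩)
  have h24 : (6:ℝ) * (1 + 3 * 2 ^ (h + h') / 2 ^ l) ≤ 24 := by
    have : (3:ℝ) * 2 ^ (h + h') / 2 ^ l ≤ 3 := by
      rw [div_le_iff₀ hlp]
      refine mul_le_mul_of_nonneg_left ?_ (by norm_num)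
      exact pow_le_pow_right₀ (by norm_num) (by omega)
    linarith
  have hfin2 : (S.card : ℝ) ≤ Tocc.card * 24 :=
    hfin.trans (mul_le_mul_of_nonneg_left h24 (by positivity))
  have hfin3 : S.card ≤ Tocc.card * 24 := by exact_mod_cast hfin2
  calc S.card ≤ Tocc.card * 24 := hfin3
    _ ≤ (693 * B) * 24 := Nat.mul_le_mul_right _ hcard
    _ ≤ 20160 * B := by omega

end Pool.Agent.ETS.RC
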