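import Mathlib
import Pool.Agent.ETS.Zone
import Pool.Agent.Helper99.ETS.ShortR

/-!
# E-T (MP_12a1af_nt), project T*: short pieces on the P side

The region `PT p e f f` (empty `P` part, block `[f, f + W e)`) against the regions `P p f b'`,
`PT p e f b'` with the same bottom, in the normal form `zcons`.
-/

set_option autoImplicit false

open Finset

namespace Pool.Agent.ETS.SH

/-- the values of a zone `PT p e f f` -/
lemma mem_PT0 {C : Codes} {p e f a κ s : ℕ} (hX0 : C.X p 0 = {1})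
    (hs : s ∈ (zreg C (Reg.PT p e f f) a κ).S) :
    ∃ t ∈ C.T e, s = a + 2 ^ f * ((C.P p (C.W e) 1 + t + κ) % 2 ^ C.W e) := by
  unfold zreg at hs
  simp only [Reg.V, Reg.bot, Reg.top, Reg.c, mem_image, mem_pairs, Nat.sub_self, hX0,
    mem_singleton, pow_zero, one_mul, Nat.add_sub_cancel_left] at hs
  obtain ⟨z, ⟨h1, h2⟩, rfl⟩ := hs
  exact ⟨(Nat.unpair z).2, h2, by rw [h1]⟩

lemma mem_P {C : Codes} {p f b a κ s : ℕ} (hs : s ∈ (zreg C (Reg.P p f b) a κ).S) :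
    ∃ x ∈ C.X p (b - f), s = a + 2 ^ f * ((C.P p (b - f) x + κ) % 2 ^ (b - f)) := by
  unfold zreg at hs
  simp only [Reg.V, Reg.bot, Reg.top, Reg.c, mem_image] at hs
  obtain ⟨x, h1, rfl⟩ := hs
  exact ⟨x, h1, rfl⟩

lemma mem_PT {C : Codes} {p e f b a κ s : ℕ} (hs : s ∈ (zreg C (Reg.PT p e f b) a κ).S) :
    ∃ x ∈ C.X p (b - f), ∃ t ∈ C.T e, s = a + 2 ^ f *
      ((C.P p (b + C.W e - f) x + 2 ^ (b - f) * t + κ) % 2 ^ (b + C.W e - f)) := by
  unfold zreg at hs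
  simp only [Reg.V, Reg.bot, Reg.top, Reg.c, mem_image, mem_pairs] at hs
  obtain ⟨z, ⟨h1, h2⟩, rfl⟩ := hs
  exact ⟨_, h1, _, h2, rfl⟩

/-- from the sum of two values to the sum of the contents in the first `W` digits -/
lemma sum_low {f W L u v a a' n : ℕ} (hL : W ≤ L) (ha : a < 2 ^ f) (ha' : a' < 2 ^ f)
    (h : (a + 2 ^ f * (u % 2 ^ W)) + (a' + 2 ^ f * (v % 2 ^ L)) ≡ n [MOD 2 ^ (f + W)]) :
    u + v ≡ n / 2 ^ f + (2 ^ W - (a + a') / 2 ^ f) [MOD 2 ^ W] := by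
  have hf : 0 < 2 ^ f := by positivity
  have hW : 0 < 2 ^ W := by positivity
  have hfW : 2 ^ (f + W) = 2 ^ f * 2 ^ W := pow_add _ _ _
  set c := (a + a') / 2 ^ f with hc
  set m := (a + a') % 2 ^ f with hm
  have hcm : a + a' = 2 ^ f * c + m := by rw [hc, hm]; exact (Nat.div_add_mod _ _).symm
  have hmlt : m < 2 ^ f := Nat.mod_lt _ hf
  have hc1 : c ≤ 1 := by
    have : c < 2 := by rw [hc, Nat.div_lt_iff_lt_mul hf]; omega
    omega
  have e1 : (a + 2 ^ f * (u % 2 ^ W)) + (a' + 2 ^ f * (v % 2 ^ L)) =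
      m + 2 ^ f * (u % 2 ^ W + v % 2 ^ L + c) := by
    have : (a + 2 ^ f * (u % 2 ^ W)) + (a' + 2 ^ f * (v % 2 ^ L)) =
      (a + a') + 2 ^ f * (u % 2 ^ W + v % 2 ^ L) := by ring
    rw [this, hcm]; ring
  rw [e1] at h
  have hn : n = n % 2 ^ f + 2 ^ f * (n / 2 ^ f) := (Nat.mod_add_div _ _).symm
  have hmod : m = n % 2 ^ f := by
    have h6 : m + 2 ^ f * (u % 2 ^ W + v % 2 ^ L + c) ≡ n [MOD 2 ^ f] :=
      h.of_dvd (by rw [hfW]; exact Dvd.intro _ rfl)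
    have h7 : m + 2 ^ f * (u % 2 ^ W + v % 2 ^ L + c) ≡ m [MOD 2 ^ f] := by simp [Nat.ModEq]
    exact ((h7.symm.trans h6).trans (Nat.mod_modEq _ _).symm).eq_of_lt_of_lt hmlt
      (Nat.mod_lt _ hf)
  rw [hn, ← hmod, hfW] at h
  have h8 := Nat.ModEq.add_left_cancel' _ h
  have h9 : u % 2 ^ W + v % 2 ^ L + c ≡ (m + 2 ^ f * (n / 2 ^ f)) / 2 ^ f [MOD 2 ^ W] := by
    have h10 : (m + 2 ^ f * (n / 2 ^ f)) / 2 ^ f = n / 2 ^ f := by
      rw [Nat.add_mul_div_left _ _ hf, Nat.div_eq_of_lt hmlt, zero_add]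
    rw [h10]
    have h11 := Nat.ModEq.mul_left_cancel' (c := 2 ^ f) (by positivity) h8
    rwa [hn, ← hmod, h10] at h11
  have h10 : (m + 2 ^ f * (n / 2 ^ f)) / 2 ^ f = n / 2 ^ f := by
    rw [Nat.add_mul_div_left _ _ hf, Nat.div_eq_of_lt hmlt, zero_add]
  rw [h10] at h9
  have hu : u % 2 ^ W ≡ u [MOD 2 ^ W] := Nat.mod_modEq _ _
  have hv : v % 2 ^ L ≡ v [MOD 2 ^ W] :=
    (Nat.mod_modEq v (2 ^ L)).of_dvd (pow_dvd_pow 2 hL)
  have h12 : u + v + c ≡ n / 2 ^ f [MOD 2 ^ W] := ((hu.add hv).add_right c).symm.trans h9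
  have h13 := h12.add_right (2 ^ W - c)
  have hcW : c ≤ 2 ^ W := by omega
  have h14 : u + v + c + (2 ^ W - c) = u + v + 2 ^ W := by omega
  rw [h14] at h13
  have h15 : u + v ≡ u + v + 2 ^ W [MOD 2 ^ W] := by simp [Nat.ModEq]
  exact h15.trans h13

/-- family (F4b), equal to `QP (W, 0, c)` of helper5 -/
def QP0 (C : Codes) (p e ν : ℕ) : Finset ℕ :=
  (range (2 ^ C.W e)).filter (fun t => ∃ x ∈ C.X p (C.W e),
    C.P p (C.W e) x + t ≡ ν [MOD 2 ^ C.W e])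

lemma QP0_congr {C : Codes} {p e ν ν' : ℕ} (h : ν ≡ ν' [MOD 2 ^ C.W e]) :
    QP0 C p e ν = QP0 C p e ν' := by
  unfold QP0
  refine filter_congr (fun t _ => ?_)
  constructor
  · rintro ⟨x, hx, h1⟩; exact ⟨x, hx, h1.trans h⟩
  · rintro ⟨x, hx, h1⟩; exact ⟨x, hx, h1.trans h.symm⟩

lemma card_QP0_le (C : Codes) (p e ν : ℕ) : (QP0 C p e ν).card ≤ (C.X p (C.W e)).card := by
  classical
  have : QP0 C p e ν ⊆ (C.X p (C.W e)).image (fun x => msub (C.W e) ν (C.P p (C.W e) x)) := by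
    intro t ht
    unfold QP0 at ht
    rw [mem_filter, mem_range] at ht
    obtain ⟨ht, x, hx, h⟩ := ht
    rw [mem_image]
    exact ⟨x, hx, (eq_msub ht (by rwa [add_comm] at h)).symm⟩
  exact (card_le_card this).trans card_image_le

variable {C : Codes} {p e f : ℕ}

lemma zreg_P_lt {b a κ s : ℕ} (hf : f ≤ b) (ha : a < 2 ^ f)
    (hs : s ∈ (zreg C (Reg.P p f b) a κ).S) : s < 2 ^ b := by
  obtain ⟨x, -, rfl⟩ := mem_P hs
  have h1 : (C.P p (b - f) x + κ) % 2 ^ (b - f) < 2 ^ (b - f) := Nat.mod_lt _ (by positivity)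
  have h2 : 2 ^ b = 2 ^ f * 2 ^ (b - f) := by rw [← pow_add]; congr 1; omega
  rw [h2]
  calc a + 2 ^ f * ((C.P p (b - f) x + κ) % 2 ^ (b - f)) <
      2 ^ f * 1 + 2 ^ f * ((C.P p (b - f) x + κ) % 2 ^ (b - f)) := by omega
    _ = 2 ^ f * (1 + (C.P p (b - f) x + κ) % 2 ^ (b - f)) := by ring
    _ ≤ _ := Nat.mul_le_mul_left _ (by omega)

/-- the set of `t` for which the first zone has a partner is in the family -/
lemma t_mem_family {W : ℕ} (hW : W = C.W e) {a κ a' κ' n x t : ℕ} {L : ℕ}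
    (hL : W ≤ L) (ha : a < 2 ^ f) (ha' : a' < 2 ^ f) (ht : t < 2 ^ W) {w : ℕ}
    (h : (a + 2 ^ f * ((C.P p W 1 + t + κ) % 2 ^ W)) +
      (a' + 2 ^ f * ((w + κ') % 2 ^ L)) ≡ n [MOD 2 ^ (f + W)])
    (hx : x ∈ C.X p W) (hw : w ≡ C.P p W x [MOD 2 ^ W]) :
    t ∈ QP0 C p e (msub W (n / 2 ^ f + (2 ^ W - (a + a') / 2 ^ f)) (C.P p W 1 + κ + κ')) := by
  subst hW
  unfold QP0
  rw [mem_filter, mem_range]
  refine ⟨ht, x, hx, ?_⟩
  have h1 := sum_low hL ha ha' h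
  set N := n / 2 ^ f + (2 ^ C.W e - (a + a') / 2 ^ f) with hN
  have h2 := msub_add (C.W e) N (C.P p (C.W e) 1 + κ + κ')
  have h3 : (C.P p (C.W e) x + t) + (C.P p (C.W e) 1 + κ + κ') ≡ N [MOD 2 ^ C.W e] := by
    have e1 : C.P p (C.W e) 1 + t + κ + (w + κ') = (w + t) + (C.P p (C.W e) 1 + κ + κ') := by ring
    rw [e1] at h1
    exact ((hw.add_right t).add_right _).symm.trans h1
  exact Nat.ModEq.add_right_cancel' _ (h3.trans h2.symm)

/-- (SP1) `PT p e f f` against `P p f (f + W)`. -/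
theorem card_SP1 {K K' n a κ a' κ' B : ℕ} (hX0 : C.X p 0 = {1})
    (hT : ∀ t ∈ C.T e, t < 2 ^ C.W e)
    (hB : ∀ ν, ν < 2 ^ C.W e → (C.T e ∩ QP0 C p e ν).card ≤ B)
    (ha : a < 2 ^ f) (ha' : a' < 2 ^ f) (hK : f + C.W e ≤ K) (hK' : f + C.W e ≤ K') :
    (zcons K K' n (zreg C (Reg.PT p e f f) a κ) (zreg C (Reg.P p f (f + C.W e)) a' κ')).card
      ≤ B := by
  classical
  set W := C.W e with hW
  set ν := msub W (n / 2 ^ f + (2 ^ W - (a + a') / 2 ^ f)) (C.P p W 1 + κ + κ') with hν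
  refine le_trans ?_ (hB ν (msub_lt _ _ _))
  have hval : ∀ s ∈ zcons K K' n (zreg C (Reg.PT p e f f) a κ)
      (zreg C (Reg.P p f (f + W)) a' κ'),
      ∃ t ∈ C.T e ∩ QP0 C p e ν, s.1 = a + 2 ^ f * ((C.P p W 1 + t + κ) % 2 ^ W) := by
    intro s hs
    have hmod := zcons_modEq (Z := zreg C (Reg.PT p e f f) a κ)
      (Z' := zreg C (Reg.P p f (f + W)) a' κ') (by simpa [zreg, Reg.top] using hK)
      (by simpa [zreg, Reg.top] using hK') hs (m := f + W) (by simp [zreg, Reg.top, hW])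
      (by simp [zreg, Reg.top])
    obtain ⟨⟨h1, h2⟩, -⟩ := mem_zcons.mp hs
    obtain ⟨t, ht, e1⟩ := mem_PT0 hX0 h1
    obtain ⟨x, hx, e2⟩ := mem_P h2
    rw [e1, e2] at hmod
    simp only [Nat.add_sub_cancel_left] at hmod hx e2
    refine ⟨t, ?_, e1⟩
    rw [mem_inter]
    exact ⟨ht, t_mem_family hW le_rfl ha ha' (hT t ht) hmod hx (Nat.ModEq.refl _)⟩
  choose! τ hτ1 hτ2 using hval
  refine card_le_card_of_injOn τ (fun s hs => Finset.mem_coe.mpr (hτ1 s (Finset.mem_coe.mp hs))) ?_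
  intro s hs u hu hsu
  rw [Finset.mem_coe] at hs hu
  have e1 : s.1 = u.1 := by rw [hτ2 s hs, hτ2 u hu, hsu]
  have hm1 := zcons_modEq (Z := zreg C (Reg.PT p e f f) a κ)
      (Z' := zreg C (Reg.P p f (f + W)) a' κ') (by simpa [zreg, Reg.top] using hK)
      (by simpa [zreg, Reg.top] using hK') hs (m := f + W) (by simp [zreg, Reg.top, hW])
      (by simp [zreg, Reg.top])
  have hm2 := zcons_modEq (Z := zreg C (Reg.PT p e f f) a κ)
      (Z' := zreg C (Reg.P p f (f + W)) a' κ') (by simpa [zreg, Reg.top] using hK)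
      (by simpa [zreg, Reg.top] using hK') hu (m := f + W) (by simp [zreg, Reg.top, hW])
      (by simp [zreg, Reg.top])
  rw [e1] at hm1
  have h3 := Nat.ModEq.add_left_cancel' _ (hm1.trans hm2.symm)
  have l1 := zreg_P_lt (show f ≤ f + W by omega) ha' (mem_zcons.mp hs).1.2
  have l2 := zreg_P_lt (show f ≤ f + W by omega) ha' (mem_zcons.mp hu).1.2
  exact Prod.ext e1 (h3.eq_of_lt_of_lt l1 l2)

/-- a set of pairs is covered by few first coordinates and few partners of each -/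
lemma card_fib_le (S : Finset (ℕ × ℕ)) (A : Finset ℕ) (M : ℕ) (hA : ∀ s ∈ S, s.1 ∈ A)
    (hM : ∀ a ∈ A, (S.filter (fun s => s.1 = a)).card ≤ M) : S.card ≤ A.card * M := by
  classical
  have := card_le_mul_card_image_of_maps_to (f := fun s : ℕ × ℕ => s.1) (s := S) (t := A)
    (fun s hs => hA s hs) M hM
  rwa [mul_comm] at this

lemma card_zreg_PT0_le {a κ : ℕ} (hX0 : C.X p 0 = {1}) :
    (zreg C (Reg.PT p e f f) a κ).S.card ≤ (C.T e).card := by
  classical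
  have : (zreg C (Reg.PT p e f f) a κ).S ⊆ (C.T e).image (fun t =>
      a + 2 ^ f * ((C.P p (C.W e) 1 + t + κ) % 2 ^ C.W e)) := by
    intro s hs
    obtain ⟨t, ht, rfl⟩ := mem_PT0 hX0 hs
    exact mem_image_of_mem _ ht
  exact (card_le_card this).trans card_image_le

/-- (SP2) `PT p e f f` against a longer `P p f b'`; `M` bounds the number of variables with
prescribed first `W` digits. -/
theorem card_SP2 {K K' n a κ a' κ' b' M : ℕ} (hX0 : C.X p 0 = {1})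
    (hb' : f + C.W e ≤ b')
    (hM : ∀ ν, ((C.X p (b' - f)).filter
      (fun x => C.P p (b' - f) x ≡ ν [MOD 2 ^ C.W e])).card ≤ M)
    (ha : a < 2 ^ f) (ha' : a' < 2 ^ f) (hK : f + C.W e ≤ K) (hK' : b' ≤ K') :
    (zcons K K' n (zreg C (Reg.PT p e f f) a κ) (zreg C (Reg.P p f b') a' κ')).card
      ≤ (C.T e).card * M := by
  classical
  set W := C.W e with hW
  refine le_trans (card_fib_le _ (zreg C (Reg.PT p e f f) a κ).S M
    (fun s hs => (mem_zcons.mp hs).1.1) ?_) (Nat.mul_le_mul_right _ (card_zreg_PT0_le hX0))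
  intro s₁ hs₁
  obtain ⟨t, ht, e1⟩ := mem_PT0 hX0 hs₁
  set N := n / 2 ^ f + (2 ^ W - (a + a') / 2 ^ f) with hN
  refine le_trans ?_ (hM (msub W N (C.P p W 1 + t + κ + κ')))
  have hval : ∀ s ∈ (zcons K K' n (zreg C (Reg.PT p e f f) a κ)
      (zreg C (Reg.P p f b') a' κ')).filter (fun s => s.1 = s₁),
      ∃ x ∈ (C.X p (b' - f)).filter (fun x => C.P p (b' - f) x ≡
        msub W N (C.P p W 1 + t + κ + κ') [MOD 2 ^ W]),
        s.2 = a' + 2 ^ f * ((C.P p (b' - f) x + κ') % 2 ^ (b' - f)) := by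
    intro s hs
    rw [mem_filter] at hs
    have hmod := zcons_modEq (Z := zreg C (Reg.PT p e f f) a κ)
      (Z' := zreg C (Reg.P p f b') a' κ') (by simpa [zreg, Reg.top] using hK)
      (by simpa [zreg, Reg.top] using hK') hs.1 (m := f + W) (by simp [zreg, Reg.top, hW])
      (by simpa [zreg, Reg.top] using hb')
    obtain ⟨⟨h1, h2⟩, -⟩ := mem_zcons.mp hs.1
    obtain ⟨x, hx, e2⟩ := mem_P h2
    refine ⟨x, ?_, e2⟩
    rw [mem_filter]
    refine ⟨hx, ?_⟩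
    rw [hs.2, e1, e2] at hmod
    have h3 := sum_low (by omega) ha ha' hmod
    have h4 := msub_add W N (C.P p W 1 + t + κ + κ')
    have h5 : C.P p (b' - f) x + (C.P p W 1 + t + κ + κ') ≡ N [MOD 2 ^ W] := by
      have e3 : C.P p W 1 + t + κ + (C.P p (b' - f) x + κ') =
        C.P p (b' - f) x + (C.P p W 1 + t + κ + κ') := by ring
      rwa [e3] at h3
    exact Nat.ModEq.add_right_cancel' _ (h5.trans h4.symm)
  choose! ξ hξ1 hξ2 using hval
  refine card_le_card_of_injOn ξ (fun s hs => Finset.mem_coe.mpr (hξ1 s (Finset.mem_coe.mp hs))) ?_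
  intro s hs u hu hsu
  rw [Finset.mem_coe] at hs hu
  have e2 : s.2 = u.2 := by rw [hξ2 s hs, hξ2 u hu, hsu]
  exact Prod.ext ((mem_filter.mp hs).2.trans (mem_filter.mp hu).2.symm) e2

/-- (SP3) `PT p e f f` against itself. -/
theorem card_SP3 {K K' n a κ a' κ' r : ℕ} (hX0 : C.X p 0 = {1})
    (hr : ∀ ν, ((C.T e ×ˢ C.T e).filter (fun q => (q.1 + q.2) % 2 ^ C.W e = ν)).card ≤ r)
    (ha : a < 2 ^ f) (ha' : a' < 2 ^ f) (hK : f + C.W e ≤ K) (hK' : f + C.W e ≤ K') :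
    (zcons K K' n (zreg C (Reg.PT p e f f) a κ) (zreg C (Reg.PT p e f f) a' κ')).card
      ≤ r := by
  classical
  set W := C.W e with hW
  set N := n / 2 ^ f + (2 ^ W - (a + a') / 2 ^ f) with hN
  refine le_trans ?_ (hr (msub W N (C.P p W 1 + κ + (C.P p W 1 + κ'))))
  have hval : ∀ s ∈ zcons K K' n (zreg C (Reg.PT p e f f) a κ)
      (zreg C (Reg.PT p e f f) a' κ'),
      ∃ q ∈ (C.T e ×ˢ C.T e).filter (fun q => (q.1 + q.2) % 2 ^ W =
        msub W N (C.P p W 1 + κ + (C.P p W 1 + κ'))),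
        s = (a + 2 ^ f * ((C.P p W 1 + q.1 + κ) % 2 ^ W),
          a' + 2 ^ f * ((C.P p W 1 + q.2 + κ') % 2 ^ W)) := by
    intro s hs
    have hmod := zcons_modEq (Z := zreg C (Reg.PT p e f f) a κ)
      (Z' := zreg C (Reg.PT p e f f) a' κ') (by simpa [zreg, Reg.top] using hK)
      (by simpa [zreg, Reg.top] using hK') hs (m := f + W) (by simp [zreg, Reg.top, hW])
      (by simp [zreg, Reg.top, hW])
    obtain ⟨⟨h1, h2⟩, -⟩ := mem_zcons.mp hs
    obtain ⟨t, ht, e1⟩ := mem_PT0 hX0 h1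
    obtain ⟨t', ht', e2⟩ := mem_PT0 hX0 h2
    refine ⟨(t, t'), ?_, Prod.ext e1 e2⟩
    rw [mem_filter, mem_product]
    refine ⟨⟨ht, ht'⟩, ?_⟩
    rw [e1, e2] at hmod
    have h3 := sum_low (W := W) (L := W) le_rfl ha ha' hmod
    have h4 := msub_add W N (C.P p W 1 + κ + (C.P p W 1 + κ'))
    have h5 : (t + t') + (C.P p W 1 + κ + (C.P p W 1 + κ')) ≡ N [MOD 2 ^ W] := by
      have e3 : C.P p W 1 + t + κ + (C.P p W 1 + t' + κ') =
        (t + t') + (C.P p W 1 + κ + (C.P p W 1 + κ')) := by ring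
      rwa [e3] at h3
    have h6 : t + t' ≡ msub W N (C.P p W 1 + κ + (C.P p W 1 + κ')) [MOD 2 ^ W] :=
      Nat.ModEq.add_right_cancel' _ (h5.trans h4.symm)
    have h7 : (t + t') % 2 ^ W = msub W N (C.P p W 1 + κ + (C.P p W 1 + κ')) % 2 ^ W := h6
    rwa [Nat.mod_eq_of_lt (msub_lt _ _ _)] at h7
  choose! ξ hξ1 hξ2 using hval
  refine card_le_card_of_injOn ξ (fun s hs => Finset.mem_coe.mpr (hξ1 s (Finset.mem_coe.mp hs))) ?_
  intro s hs u hu hsu
  rw [Finset.mem_coe] at hs hu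
  rw [hξ2 s hs, hξ2 u hu, hsu]

/-- (SP4) `PT p e f f` against `PT p e f b'`, `f + W ≤ b'`. `A` bounds the number of the `t` which
have a partner (`B` for `b' = f + W`, `|T|` always), `M` the number of variables with prescribed
first `W` digits. -/
theorem card_SP4 {K K' n a κ a' κ' b' M A : ℕ} (hX0 : C.X p 0 = {1})
    (hb' : f + C.W e ≤ b')
    (hM : ∀ ν, ((C.X p (b' - f)).filter
      (fun x => C.P p (b' + C.W e - f) x ≡ ν [MOD 2 ^ C.W e])).card ≤ M)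
    (hA : ∀ ν, ((C.T e).filter (fun t => ∃ x ∈ C.X p (b' - f),
      C.P p (b' + C.W e - f) x + t ≡ ν [MOD 2 ^ C.W e])).card ≤ A)
    (ha : a < 2 ^ f) (ha' : a' < 2 ^ f) (hK : f + C.W e ≤ K) (hK' : b' + C.W e ≤ K') :
    (zcons K K' n (zreg C (Reg.PT p e f f) a κ) (zreg C (Reg.PT p e f b') a' κ')).card
      ≤ A * (M * (C.T e).card) := by
  classical
  set W := C.W e with hW
  set N := n / 2 ^ f + (2 ^ W - (a + a') / 2 ^ f) with hN
  -- the equation in the first `W` digits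
  have hlow : ∀ s ∈ zcons K K' n (zreg C (Reg.PT p e f f) a κ) (zreg C (Reg.PT p e f b') a' κ'),
      ∃ t ∈ C.T e, ∃ x ∈ C.X p (b' - f), ∃ t' ∈ C.T e,
      s.1 = a + 2 ^ f * ((C.P p W 1 + t + κ) % 2 ^ W) ∧
      s.2 = a' + 2 ^ f * ((C.P p (b' + W - f) x + 2 ^ (b' - f) * t' + κ') % 2 ^ (b' + W - f)) ∧
      C.P p (b' + W - f) x + t ≡ msub W N (C.P p W 1 + κ + κ') [MOD 2 ^ W] := by
    intro s hs
    have hmod := zcons_modEq (Z := zreg C (Reg.PT p e f f) a κ)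
      (Z' := zreg C (Reg.PT p e f b') a' κ') (by simpa [zreg, Reg.top] using hK)
      (by simpa [zreg, Reg.top] using hK') hs (m := f + W) (by simp [zreg, Reg.top, hW])
      (by simp [zreg, Reg.top]; omega)
    obtain ⟨⟨h1, h2⟩, -⟩ := mem_zcons.mp hs
    obtain ⟨t, ht, e1⟩ := mem_PT0 hX0 h1
    obtain ⟨x, hx, t', ht', e2⟩ := mem_PT h2
    refine ⟨t, ht, x, hx, t', ht', e1, e2, ?_⟩
    rw [e1, e2] at hmod
    have h3 := sum_low (by omega) ha ha' hmod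
    have h4 := msub_add W N (C.P p W 1 + κ + κ')
    have h6 : 2 ^ (b' - f) * t' ≡ 0 [MOD 2 ^ W] :=
      Nat.modEq_zero_iff_dvd.mpr (Dvd.dvd.mul_right (pow_dvd_pow 2 (by omega)) _)
    have e3 : C.P p W 1 + t + κ + (C.P p (b' + W - f) x + 2 ^ (b' - f) * t' + κ') =
      C.P p (b' + W - f) x + t + (C.P p W 1 + κ + κ') + 2 ^ (b' - f) * t' := by ring
    rw [e3] at h3
    have h5 : C.P p (b' + W - f) x + t + (C.P p W 1 + κ + κ') ≡ N [MOD 2 ^ W] := by
      have h7 := (Nat.ModEq.refl (C.P p (b' + W - f) x + t + (C.P p W 1 + κ + κ'))).add h6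
      rw [add_zero] at h7
      exact h7.symm.trans h3
    exact Nat.ModEq.add_right_cancel' _ (h5.trans h4.symm)
  set TA := (C.T e).filter (fun t => ∃ x ∈ C.X p (b' - f),
      C.P p (b' + W - f) x + t ≡ msub W N (C.P p W 1 + κ + κ') [MOD 2 ^ W]) with hTA
  set S1 := TA.image (fun t => a + 2 ^ f * ((C.P p W 1 + t + κ) % 2 ^ W)) with hS1
  refine le_trans (card_fib_le _ S1 (M * (C.T e).card) ?_ ?_)
    (Nat.mul_le_mul_right _ (card_image_le.trans (hA _)))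
  · intro s hs
    obtain ⟨t, ht, x, hx, t', ht', e1, e2, h⟩ := hlow s hs
    rw [hS1, mem_image]
    refine ⟨t, ?_, e1.symm⟩
    rw [hTA, mem_filter]
    exact ⟨ht, x, hx, h⟩
  · intro s₁ hs₁
    rw [hS1, mem_image] at hs₁
    obtain ⟨t₀, ht₀, rfl⟩ := hs₁
    -- the second coordinate is given by `x` (few values) and `t'`
    set XM := (C.X p (b' - f)).filter (fun x => C.P p (b' + W - f) x ≡
        msub W N (C.P p W 1 + t₀ + κ + κ') [MOD 2 ^ W]) with hXM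
    have hval : ∀ s ∈ (zcons K K' n (zreg C (Reg.PT p e f f) a κ)
        (zreg C (Reg.PT p e f b') a' κ')).filter
        (fun s => s.1 = a + 2 ^ f * ((C.P p W 1 + t₀ + κ) % 2 ^ W)),
        ∃ q ∈ XM ×ˢ C.T e, s.2 = a' + 2 ^ f *
          ((C.P p (b' + W - f) q.1 + 2 ^ (b' - f) * q.2 + κ') % 2 ^ (b' + W - f)) := by
      intro s hs
      rw [mem_filter] at hs
      have hmod := zcons_modEq (Z := zreg C (Reg.PT p e f f) a κ)
        (Z' := zreg C (Reg.PT p e f b') a' κ') (by simpa [zreg, Reg.top] using hK)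
        (by simpa [zreg, Reg.top] using hK') hs.1 (m := f + W) (by simp [zreg, Reg.top, hW])
        (by simp [zreg, Reg.top]; omega)
      obtain ⟨⟨h1, h2⟩, -⟩ := mem_zcons.mp hs.1
      obtain ⟨x, hx, t', ht', e2⟩ := mem_PT h2
      refine ⟨(x, t'), ?_, e2⟩
      rw [mem_product, hXM, mem_filter]
      refine ⟨⟨hx, ?_⟩, ht'⟩
      rw [hs.2, e2] at hmod
      have h3 := sum_low (by omega) ha ha' hmod
      have h4 := msub_add W N (C.P p W 1 + t₀ + κ + κ')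
      have h6 : 2 ^ (b' - f) * t' ≡ 0 [MOD 2 ^ W] :=
        Nat.modEq_zero_iff_dvd.mpr (Dvd.dvd.mul_right (pow_dvd_pow 2 (by omega)) _)
      have e3 : C.P p W 1 + t₀ + κ + (C.P p (b' + W - f) x + 2 ^ (b' - f) * t' + κ') =
        C.P p (b' + W - f) x + (C.P p W 1 + t₀ + κ + κ') + 2 ^ (b' - f) * t' := by ring
      rw [e3] at h3
      have h5 : C.P p (b' + W - f) x + (C.P p W 1 + t₀ + κ + κ') ≡ N [MOD 2 ^ W] := by
        have h7 := (Nat.ModEq.refl (C.P p (b' + W - f) x + (C.P p W 1 + t₀ + κ + κ'))).add h6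
        rw [add_zero] at h7
        exact h7.symm.trans h3
      exact Nat.ModEq.add_right_cancel' _ (h5.trans h4.symm)
    choose! ξ hξ1 hξ2 using hval
    have hcard : (XM ×ˢ C.T e).card ≤ M * (C.T e).card := by
      rw [card_product]
      exact Nat.mul_le_mul_right _ (hM _)
    refine le_trans (card_le_card_of_injOn ξ
      (fun s hs => Finset.mem_coe.mpr (hξ1 s (Finset.mem_coe.mp hs))) ?_) hcard
    intro s hs u hu hsu
    rw [Finset.mem_coe] at hs hu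
    have e2 : s.2 = u.2 := by rw [hξ2 s hs, hξ2 u hu, hsu]
    exact Prod.ext ((mem_filter.mp hs).2.trans (mem_filter.mp hu).2.symm) e2

end Pool.Agent.ETS.SH
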